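import Mathlib
import Pool.Agent.X109.LT.B

/-!
# A quasi-rigid operator on a Hilbert space for which no left orbit captures `Ω(T)`

On a separable infinite-dimensional Hilbert space, real or complex, there is a
quasi-rigid operator `T` such that for every bounded operator `Λ` the set `Ω(T)` is not contained
in the closure of `{T ^ n Λ : n ≥ 1}` for the strong operator topology.
-/

set_option autoImplicit false

open Filter Topology

namespace Pool.Agent.Results.MP_24d2d6_an.NoLeftOrbit

section defs

variable {𝕜 : Type} [RCLike 𝕜] {X : Type} [NormedAddCommGroup X] [NormedSpace 𝕜 X]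

/-- `Ω(T)`: the bounded operators `h` for which there are a strictly increasing sequence `ω` of
positive integers and a dense set of vectors `x` with `T ^ (ω n) x → h x` -/
def Omega (T : X →L[𝕜] X) : Set (X →L[𝕜] X) :=
  {h | ∃ ω : ℕ → ℕ, StrictMono ω ∧ (∀ n, 0 < ω n) ∧ ∃ D : Set X, Dense D ∧
    ∀ x ∈ D, Tendsto (fun n => (T ^ ω n) x) atTop (𝓝 (h x))}

/-- `T` is quasi-rigid: there are a strictly increasing sequence `θ` of positive integers and a
dense set of vectors `x` with `T ^ (θ n) x → x` -/
def QuasiRigid (T : X →L[𝕜] X) : Prop :=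
  ∃ θ : ℕ → ℕ, StrictMono θ ∧ (∀ n, 0 < θ n) ∧ ∃ D : Set X, Dense D ∧
    ∀ x ∈ D, Tendsto (fun n => (T ^ θ n) x) atTop (𝓝 x)

/-- the closure of a set `S` of bounded operators for the strong operator topology: `h` belongs to
it when for all finitely many vectors and every `ε > 0` some element of `S` is `ε`-close to `h` at
these vectors -/
def sotClosure (S : Set (X →L[𝕜] X)) : Set (X →L[𝕜] X) :=
  {h | ∀ (F : Finset X) (ε : ℝ), 0 < ε → ∃ R ∈ S, ∀ x ∈ F, ‖R x - h x‖ < ε}

end defs

open Pool.Agent.X109.LT

/-- For real and for complex scalars there are a separable infinite-dimensional Hilbert space `X`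
and a quasi-rigid bounded operator `T` on `X` such that for no bounded operator `Λ` on `X` the set
`Ω(T)` is contained in the strong operator closure of `{T ^ n Λ : n ≥ 1}`. -/
theorem result (𝕜 : Type) [RCLike 𝕜] :
    ∃ (X : Type) (_ : NormedAddCommGroup X) (_ : InnerProductSpace 𝕜 X) (T : X →L[𝕜] X),
      CompleteSpace X ∧ TopologicalSpace.SeparableSpace X ∧ ¬ FiniteDimensional 𝕜 X ∧
      QuasiRigid T ∧
      ∀ Λ : X →L[𝕜] X, ¬ (Omega T ⊆ sotClosure {R | ∃ n : ℕ, 0 < n ∧ R = T ^ n * Λ}) := by
  classical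
  refine ⟨Pool.Agent.X109.LT.X 𝕜, inferInstance, inferInstance, A 1, inferInstance, separable_X,
    ?_, ?_, ?_⟩
  · intro hfin
    -- infinitely many orthonormal vectors
    have hli : LinearIndependent 𝕜 (fun k : ℕ => (e k : Pool.Agent.X109.LT.X 𝕜)) := by
      rw [linearIndependent_iff']
      intro s g hg k hk
      have h1 := congrArg (fun x : Pool.Agent.X109.LT.X 𝕜 => x (⟨k, 0⟩ : I)) hg
      simp only [lp.coeFn_sum, Finset.sum_apply, lp.coeFn_smul, Pi.smul_apply, lp.coeFn_zero,
        Pi.zero_apply, smul_eq_mul] at h1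
      rw [Finset.sum_eq_single k] at h1
      · rwa [e_apply, mul_one] at h1
      · intro b _ hb
        have : (e b : Pool.Agent.X109.LT.X 𝕜) (⟨k, 0⟩ : I) = 0 := by
          unfold e
          rw [lp.single_apply_ne]
          intro h
          exact hb (congrArg Sigma.fst h).symm
        rw [this, mul_zero]
      · intro h
        exact absurd hk h
    have hf : Finite ℕ := hli.finite
    exact not_finite ℕ
  · refine ⟨fun n => 2 ^ n, fun a b h => Nat.pow_lt_pow_right (by norm_num) h,
      fun n => by positivity, D 𝕜, dense_D, fun x hx => ?_⟩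
    apply tendsto_const_nhds.congr'
    have h1 := A_eventually hx 0 (fun n => ((2 ^ n : ℕ) : ℤ)) (fun k => by
      filter_upwards [pow_tendsto_zero_mod k] with n hn
      rw [Int.cast_natCast, hn, Int.cast_zero])
    filter_upwards [h1] with n hn
    rw [A_pow, hn, A_zero]
    rfl
  · intro Λ hsub
    apply not_closure Λ
    intro m F ε hε
    have hmem : (A (-(m : ℤ)) : Pool.Agent.X109.LT.X 𝕜 →L[𝕜] Pool.Agent.X109.LT.X 𝕜) ∈
        Omega (A 1 : Pool.Agent.X109.LT.X 𝕜 →L[𝕜] Pool.Agent.X109.LT.X 𝕜) := by
      have hlt : ∀ n : ℕ, m < 2 ^ (n + m) := fun n =>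
        (Nat.lt_two_pow_self).trans_le (Nat.pow_le_pow_right (by norm_num) (by omega))
      refine ⟨fun n => 2 ^ (n + m) - m, ?_, fun n => Nat.sub_pos_of_lt (hlt n), D 𝕜, dense_D,
        fun x hx => ?_⟩
      · intro a b h
        have h1 := hlt a
        have h2 : 2 ^ (a + m) < 2 ^ (b + m) := Nat.pow_lt_pow_right (by norm_num) (by omega)
        show 2 ^ (a + m) - m < 2 ^ (b + m) - m
        omega
      · apply tendsto_const_nhds.congr'
        have h1 := A_eventually hx (-(m : ℤ)) (fun n => ((2 ^ (n + m) - m : ℕ) : ℤ)) (fun k => by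
          have h2 := (tendsto_add_atTop_nat m).eventually (pow_tendsto_zero_mod k)
          filter_upwards [h2] with n hn
          rw [Nat.cast_sub (hlt n).le, Int.cast_sub, Int.cast_natCast, hn, zero_sub, Int.cast_neg])
        filter_upwards [h1] with n hn
        rw [A_pow, hn]
    obtain ⟨R, ⟨n, hn, rfl⟩, hF⟩ := hsub hmem F ε hε
    exact ⟨n, hn, hF⟩

end Pool.Agent.Results.MP_24d2d6_an.NoLeftOrbit
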